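import Pool.Agent.CYG.Def

/-!
CYL, interface A/PF -> B: continuity of the transfer matrix in `(v, w)`.
-/

namespace Pool.Agent.CYL

open Complex Finset
open Pool.Agent.BEX

theorem Rt_cont {X ι : Type*} [TopologicalSpace X] [DecidableEq ι] (p q : ι) {g : X → ℂ}
    (hg : Continuous g) {G : X → St ι → ℂ} (hG : ∀ m, Continuous fun x => G x m) (m : St ι) :
    Continuous fun x => Rt p q (g x) (G x) m := by
  have h0 : Continuous fun x => kk (g x) := by unfold kk; fun_prop
  have h2 : Continuous fun x => w2 (g x) := by unfold w2; fun_prop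
  have h4 : Continuous fun x => w4 (g x) := by unfold w4; fun_prop
  have h6 : Continuous fun x => w6 (g x) := by unfold w6; fun_prop
  have h8 : Continuous fun x => w8 (g x) := by unfold w8; fun_prop
  have h9 : Continuous fun x => w9 (g x) := by unfold w9; fun_prop
  unfold Rt
  split_ifs
  · exact (h0.mul (hG _)).add (h4.mul (hG _))
  · exact (h6.mul (hG _)).add (h2.mul (hG _))
  · exact (h6.mul (hG _)).add (h2.mul (hG _))
  · exact h8.mul (hG _)
  · exact ((h8.mul (hG _)).add (h9.mul (hG _))).add (h4.mul (hG _))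

theorem foldr_cont {X ι : Type*} [TopologicalSpace X] [DecidableEq ι] [Fintype ι]
    {v : X → ℂ} (hv : Continuous v) {U : X → ι → ℂ} (hU : ∀ i, Continuous fun x => U x i)
    (H : St (Option (Option ι)) → ℂ) : ∀ (ls : List ι) (m : St (Option (Option ι))),
    Continuous fun x => (ls.foldr (fun i G => Rt ax (lb i) (v x - U x i) G) H) m := by
  intro ls
  induction ls with
  | nil =>
    intro m
    simp only [List.foldr_nil]
    exact continuous_const
  | cons i ls ih =>
    intro m
    simp only [List.foldr_cons]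
    exact Rt_cont ax (lb i) (hv.sub (hU i)) ih m

theorem Tt_cont {X ι : Type*} [TopologicalSpace X] [DecidableEq ι] [Fintype ι] (ls : List ι)
    {v : X → ℂ} (hv : Continuous v) {U : X → ι → ℂ} (hU : ∀ i, Continuous fun x => U x i)
    (F : St ι → ℂ) (m : St ι) : Continuous fun x => Tt ls (v x) (U x) F m := by
  unfold Tt cupF
  exact (foldr_cont hv hU (capF F) ls (ext0 m)).add (foldr_cont hv hU (capF F) ls (ext1 m))

theorem Tf_cont (L l : ℕ) (F : Sts L l → ℂ) (m : Sts L l) :
    Continuous fun x : ℂ × ℝ => Tf x.1 (Uw L x.2) F m := by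
  unfold Tf
  refine Tt_cont (lns L l) continuous_fst ?_ F m
  intro i
  rcases i with i | i
  · simp only [rap, Sum.elim_inl, Uw]
    split_ifs
    · exact continuous_ofReal.comp continuous_snd
    · exact (continuous_ofReal.comp continuous_snd).neg
  · simp only [rap, Sum.elim_inr]
    exact continuous_const

/-- The eigenvalue as a finite sum. -/
theorem t_eq {L l : ℕ} {U : Fin L → ℂ} {psi : Sts L l → ℝ} {t : ℂ → ℂ} (h : IsPsi U psi t)
    (v : ℂ) : t v = ∑ m, (psi m : ℂ) * Tf v U (fun m => if Chi m then 1 else 0) m := by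
  rw [h.eig v (fun m => if Chi m then 1 else 0) (fun m hm => if_neg hm)]
  have hs : ∑ m, (psi m : ℂ) * (if Chi m then (1 : ℂ) else 0) = 1 := by
    have h1 : ∀ m, (psi m : ℂ) * (if Chi m then (1 : ℂ) else 0) = ((psi m : ℝ) : ℂ) := by
      intro m
      by_cases hm : Chi m
      · rw [if_pos hm, mul_one]
      · have h2 : psi m = 0 := h.supp m (fun hc => hm hc.1)
        rw [h2]
        simp
    rw [Finset.sum_congr rfl (fun m _ => h1 m), ← ofReal_sum, h.sum, ofReal_one]
  rw [hs, mul_one]

end Pool.Agent.CYL
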