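import Pool.Agent.CYG.Def
import Pool.Agent.CYL.B.Def

/-!
CYL, interface A/PF -> B: empty sites, arcless states, the phase of the leading coefficient.
-/

namespace Pool.Agent.CYL

open Complex Finset
open Pool.Agent.BEX Pool.Agent.CYL.B

/-- the empty sites -/
def emps {L l : ℕ} (m : Sts L l) : Finset (Fin L) :=
  univ.filter fun i => m (Sum.inl i) = Sum.inl i

/-- number of empty sites: `L - l - 2 * arcs`. -/
theorem emps_card {L l : ℕ} {m : Sts L l} (h : Chi m) :
    ∃ k : ℕ, (emps m).card + 2 * k + l = L ∧ (k = 0 ↔ Arcless m) := by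
  classical
  set A : Finset (Fin L) := univ.filter fun i => ∃ j : Fin l, m (Sum.inl i) = Sum.inr j with hA
  set B : Finset (Fin L) := univ.filter fun i => ∃ k : Fin L, m (Sum.inl i) = Sum.inl k ∧ k ≠ i
    with hB
  have hAc : A.card = l := by
    have h' := h
    choose f hf using h'
    have hinj : Function.Injective f := by
      intro a b hab
      have h1 : m (Sum.inr a) = m (Sum.inr b) := by rw [hf, hf, hab]
      have h2 := m.inj h1
      exact Sum.inr_injective h2
    have hAe : A = univ.image f := by
      ext i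
      simp only [hA, mem_filter, mem_univ, true_and, mem_image]
      constructor
      · rintro ⟨j, hj⟩
        refine ⟨j, ?_⟩
        have h1 : m (Sum.inr j) = Sum.inl i := by rw [← hj]; simp
        have h2 := (hf j).symm.trans h1
        exact Sum.inl_injective h2
      · rintro ⟨j, rfl⟩
        refine ⟨j, ?_⟩
        rw [← hf j]; simp
    rw [hAe, card_image_of_injective _ hinj, card_univ, Fintype.card_fin]
  have hBe : Even B.card := by
    have key : ∑ _i ∈ B, (1 : ZMod 2) = 0 := by
      refine Finset.sum_involution (fun i hi => (Finset.mem_filter.1 hi).2.choose) ?_ ?_ ?_ ?_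
      · intro a ha
        decide
      · intro a ha _
        exact (Finset.mem_filter.1 ha).2.choose_spec.2
      · intro a ha
        have hs := (Finset.mem_filter.1 ha).2.choose_spec
        rw [hB, mem_filter]
        refine ⟨mem_univ _, a, ?_, fun e => hs.2 e.symm⟩
        rw [← hs.1]; simp
      · intro a ha
        have hs := (Finset.mem_filter.1 ha).2.choose_spec
        have hmem : (Finset.mem_filter.1 ha).2.choose ∈ B := by
          rw [hB, mem_filter]
          refine ⟨mem_univ _, a, ?_, fun e => hs.2 e.symm⟩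
          rw [← hs.1]; simp
        have hs2 := (Finset.mem_filter.1 hmem).2.choose_spec
        have h3 : m (Sum.inl ((Finset.mem_filter.1 ha).2.choose)) = Sum.inl a := by
          rw [← hs.1]; simp
        have h4 := hs2.1.symm.trans h3
        exact Sum.inl_injective h4
    rw [Finset.sum_const, nsmul_eq_mul, mul_one] at key
    exact (ZMod.natCast_eq_zero_iff_even).1 key
  have hpart : (emps m).card + B.card + A.card = L := by
    have h1 : Disjoint (emps m) B := by
      rw [Finset.disjoint_left]
      intro i hi hi2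
      simp only [emps, hB, mem_filter, mem_univ, true_and] at hi hi2
      obtain ⟨k, hk, hki⟩ := hi2
      rw [hi] at hk
      exact hki (Sum.inl_injective hk).symm
    have h2 : Disjoint (emps m ∪ B) A := by
      rw [Finset.disjoint_left]
      intro i hi hi2
      simp only [emps, hA, hB, mem_union, mem_filter, mem_univ, true_and] at hi hi2
      obtain ⟨j, hj⟩ := hi2
      rcases hi with hi | ⟨k, hk, _⟩
      · rw [hi] at hj; simp at hj
      · rw [hk] at hj; simp at hj
    have h3 : (emps m ∪ B) ∪ A = univ := by
      ext i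
      simp only [emps, hA, hB, mem_union, mem_filter, mem_univ, true_and, iff_true]
      rcases hmi : m (Sum.inl i) with k | j
      · by_cases hk : k = i
        · left; left; rw [hk]
        · left; right; exact ⟨k, rfl, hk⟩
      · right; exact ⟨j, rfl⟩
    rw [← card_union_of_disjoint h1, ← card_union_of_disjoint h2, h3, card_univ, Fintype.card_fin]
  obtain ⟨k, hk⟩ := hBe
  refine ⟨k, by omega, ?_⟩
  have hk0 : k = 0 ↔ B = ∅ := by
    rw [← card_eq_zero]; omega
  rw [hk0]
  constructor
  · intro hB0
    refine ⟨h, fun i k' hik => ?_⟩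
    by_contra hne
    have : i ∈ B := by
      rw [hB, mem_filter]
      exact ⟨mem_univ _, k', hik, fun e => hne e.symm⟩
    rw [hB0] at this
    simp at this
  · rintro ⟨_, h2⟩
    rw [Finset.eq_empty_iff_forall_notMem]
    intro i hi
    rw [hB, mem_filter] at hi
    obtain ⟨_, k', hk', hne⟩ := hi
    exact hne (h2 i k' hk').symm

theorem Os_eq {L l : ℕ} {m : Sts L l} (h : Chi m) (U : Fin L → ℂ) (u : ℂ) :
    Os U u m = bb ^ (L - (emps m).card) * ∏ i ∈ emps m, sin (u - U i) := by
  classical
  unfold Os Oa
  rw [if_pos h, Finset.prod_ite, Finset.prod_const, mul_comm]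
  have h1 : (univ.filter fun i : Fin L => ¬ m (Sum.inl i) = Sum.inl i).card = L - (emps m).card := by
    have h2 := Finset.card_filter_add_card_filter_not (s := (univ : Finset (Fin L)))
      (fun i : Fin L => m (Sum.inl i) = Sum.inl i)
    rw [card_univ, Fintype.card_fin] at h2
    unfold emps
    omega
  rw [h1]
  rfl

/-- the occupied sites of an arcless state: `l` sites. -/
theorem arcless_card {L l : ℕ} {m : Sts L l} (h : Arcless m) :
    ((emps m)ᶜ).card = l := by
  obtain ⟨k, hk, hk0⟩ := emps_card h.1
  have := hk0.2 h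
  rw [card_compl, Fintype.card_fin]
  omega

/-- `sum of U` over the empty sites, for `U = (w, -w, ..)`, `l ≤ 2` occupied sites:
`e^(-i sum U)` has real part at least `cos (2 w) > 0`. -/
theorem phase_re_pos {p l : ℕ} (hl : l = 1 ∨ l = 2) {w : ℝ} (hw : w ∈ Set.Ico 0 (Real.pi / 8))
    {m : Sts (2 * p) l} (h : Arcless m) :
    0 < (∏ i ∈ emps m, exp (-(I * Uw (2 * p) w i))).re := by
  set r : Fin (2 * p) → ℝ := fun i => if (i : ℕ) % 2 = 0 then w else -w with hr
  have hU : ∀ i, Uw (2 * p) w i = (r i : ℂ) := by
    intro i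
    simp only [Uw, hr]
    split_ifs <;> push_cast <;> rfl
  have hgen : ∀ n : ℕ, ∑ i ∈ range (2 * n), (if i % 2 = 0 then w else -w) = 0 := by
    intro n
    induction n with
    | zero => simp
    | succ n ih =>
      rw [show 2 * (n + 1) = 2 * n + 1 + 1 by ring, Finset.sum_range_succ, Finset.sum_range_succ, ih,
        if_pos (by omega), if_neg (by omega)]
      ring
  have htot : ∑ i, r i = 0 := by
    rw [Fin.sum_univ_eq_sum_range (fun i : ℕ => if i % 2 = 0 then w else -w) (2 * p)]
    exact hgen p
  have hsum : ∑ i ∈ emps m, r i = - ∑ i ∈ (emps m)ᶜ, r i := by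
    have := Finset.sum_add_sum_compl (emps m) r
    linarith
  have habs : |∑ i ∈ emps m, r i| ≤ l * w := by
    rw [hsum, abs_neg]
    refine (Finset.abs_sum_le_sum_abs _ _).trans ?_
    have : ∑ i ∈ (emps m)ᶜ, |r i| ≤ ∑ _i ∈ (emps m)ᶜ, w := by
      refine Finset.sum_le_sum fun i _ => ?_
      simp only [hr]
      split_ifs
      · rw [abs_of_nonneg hw.1]
      · rw [abs_neg, abs_of_nonneg hw.1]
    refine this.trans ?_
    rw [Finset.sum_const, arcless_card h, nsmul_eq_mul]
  have hlt : |∑ i ∈ emps m, r i| < Real.pi / 2 := by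
    have hw0 := hw.1
    have hw1 := hw.2
    have hpi := Real.pi_pos
    rcases hl with rfl | rfl
    · push_cast at habs; linarith
    · push_cast at habs; linarith
  have hprod : ∏ i ∈ emps m, exp (-(I * Uw (2 * p) w i)) =
      exp (((-(∑ i ∈ emps m, r i) : ℝ) : ℂ) * I) := by
    rw [← Complex.exp_sum]
    congr 1
    rw [Finset.sum_congr rfl (fun i _ => by rw [hU i]), Finset.sum_neg_distrib, ← Finset.mul_sum]
    push_cast
    ring
  rw [hprod, Complex.exp_ofReal_mul_I_re, Real.cos_neg]
  rw [abs_lt] at hlt
  exact Real.cos_pos_of_mem_Ioo ⟨by linarith [hlt.1], hlt.2⟩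

end Pool.Agent.CYL
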