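import Pool.Agent.CYG.B.IfCont
import Pool.Agent.CYG.B.IfTP

/-!
CYL, interface A/PF -> B: the structure `BData` and `BLim` from `Family` and `TQ`.
-/

namespace Pool.Agent.CYL

open Complex Finset Filter Topology
open Pool.Agent.BEX Pool.Agent.CYL.B

theorem lam_eq_la : (lam : ℂ) = ((la : ℝ) : ℂ) := by
  unfold lam la
  push_cast
  rfl

theorem prod_Uw (p : ℕ) (w : ℝ) (g : ℂ → ℂ) :
    ∏ i, g (Uw (2 * p) w i) = (g w * g (-w)) ^ p := by
  have h1 : ∏ i, g (Uw (2 * p) w i) = ∏ i ∈ range (2 * p), g (if i % 2 = 0 then (w : ℂ) else -(w : ℂ)) :=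
    Fin.prod_univ_eq_prod_range (fun i => g (if i % 2 = 0 then (w : ℂ) else -(w : ℂ))) (2 * p)
  rw [h1]
  clear h1
  induction p with
  | zero => simp
  | succ p ih =>
    have h2 : 2 * (p + 1) = 2 * p + 1 + 1 := by ring
    rw [h2, prod_range_succ, prod_range_succ, ih, pow_succ]
    have h3 : (2 * p) % 2 = 0 := by omega
    have h4 : ¬ (2 * p + 1) % 2 = 0 := by omega
    rw [if_pos h3, if_neg h4]
    ring

theorem prod_sin_Uw (p : ℕ) (w : ℝ) (u : ℂ) : ∏ i, sin (u - Uw (2 * p) w i) = ff p w u := by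
  rw [prod_Uw p w fun x => sin (u - x)]
  unfold ff
  rw [sub_neg_eq_add]

theorem prod_sin_Uw' (p : ℕ) (w : ℝ) (a u : ℂ) :
    ∏ i, sin (a - (u - Uw (2 * p) w i)) = ff p w (u - a) := by
  rw [prod_Uw p w fun x => sin (a - (u - x))]
  unfold ff
  have h1 : sin (a - (u - (w : ℂ))) = - sin (u - a - w) := by
    rw [← Complex.sin_neg]
    congr 1
    ring
  have h2 : sin (a - (u - (-(w : ℂ)))) = - sin (u - a + w) := by
    rw [← Complex.sin_neg]
    congr 1
    ring
  rw [h1, h2, neg_mul_neg]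

private theorem Iface_Uw_conj (L : ℕ) (w : ℝ) (i : Fin L) : (starRingEnd ℂ) (Uw L w i) = Uw L w i := by
  unfold Uw
  split_ifs
  · exact Complex.conj_ofReal w
  · rw [map_neg, Complex.conj_ofReal]

private theorem Iface_Os_conj {L l : ℕ} (w : ℝ) (u : ℂ) (m : Sts L l) :
    (starRingEnd ℂ) (Os (Uw L w) u m) = Os (Uw L w) ((starRingEnd ℂ) u) m := by
  unfold Os Oa
  split_ifs
  · rw [map_prod]
    refine prod_congr rfl fun i _ => ?_
    split_ifs
    · rw [← Complex.sin_conj, map_sub, Iface_Uw_conj]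
    · exact Complex.conj_ofReal _
  · exact map_zero _

theorem qf_conj {L l : ℕ} (psi : Sts L l → ℝ) (w : ℝ) (u : ℂ) :
    (starRingEnd ℂ) (qf (Uw L w) psi u) = qf (Uw L w) psi ((starRingEnd ℂ) u) := by
  unfold qf
  rw [map_sum]
  refine sum_congr rfl fun m _ => ?_
  rw [map_mul, Complex.conj_ofReal, Iface_Os_conj]

private theorem Iface_Uw_cont (L : ℕ) (i : Fin L) : Continuous fun w : ℝ => Uw L w i := by
  unfold Uw
  split_ifs
  · exact Complex.continuous_ofReal
  · exact Complex.continuous_ofReal.neg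

private theorem Iface_Os_cont {L l : ℕ} (u : ℂ) (m : Sts L l) :
    Continuous fun w : ℝ => Os (Uw L w) u m := by
  unfold Os Oa
  split_ifs
  · refine continuous_finsetProd _ fun i _ => ?_
    split_ifs
    · exact Complex.continuous_sin.comp (continuous_const.sub (Iface_Uw_cont L i))
    · exact continuous_const
  · exact continuous_const

theorem qf_cont {L l : ℕ} {psi : ℝ → Sts L l → ℝ} {S : Set ℝ}
    (h : ∀ m, ContinuousOn (fun w => psi w m) S) (u : ℂ) :
    ContinuousOn (fun w => qf (Uw L w) (psi w) u) S := by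
  unfold qf
  refine continuousOn_finsetSum _ fun m _ => ?_
  exact (Complex.continuous_ofReal.comp_continuousOn (h m)).mul (Iface_Os_cont u m).continuousOn

theorem t_cont {p l : ℕ} {psi0 : Sts p l → ℝ} (Fa : Family p l psi0) (v : ℂ) :
    ContinuousOn (fun w => Fa.t w v) (Set.Ico 0 (Real.pi / 8)) := by
  have h1 : ContinuousOn (fun w => ∑ m, (Fa.psi w m : ℂ) *
      Tf v (Uw (2 * p) w) (fun m => if Chi m then 1 else 0) m) (Set.Ico 0 (Real.pi / 8)) := by
    refine continuousOn_finsetSum _ fun m _ => ?_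
    refine (Complex.continuous_ofReal.comp_continuousOn (Fa.cont m)).mul ?_
    have h2 := (Tf_cont (2 * p) l (fun m => if Chi m then 1 else 0) m).comp
      (continuous_const.prodMk continuous_id : Continuous fun w : ℝ => (v, w))
    exact h2.continuousOn
  refine h1.congr fun w hw => ?_
  exact t_eq (Fa.isPsi w hw.1 hw.2) v

/-- `TQ` for the rapidities `Uw` in the form of `BData.tq`. -/
theorem TQ_iff {p l : ℕ} (w : ℝ) (t q : ℂ → ℂ) : TQ (2 * p) l (Uw (2 * p) w) t q ↔
    ∀ u : ℂ, t u * q (u - la) * q (u - 2 * la) =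
      (-1) ^ l * (ff p w (u - 2 * la) * ff p w (u - 3 * la)) * q (u + la) * q (u - 2 * la)
      + (ff p w u * ff p w (u - 3 * la)) * q u * q (u - 3 * la)
      + (-1) ^ l * (ff p w u * ff p w (u - la)) * q (u - 4 * la) * q (u - la) := by
  unfold TQ
  refine forall_congr' fun u => ?_
  have h1 : ((-1 : ℂ)) ^ (2 * p + l) = (-1) ^ l := by
    rw [pow_add, pow_mul, neg_one_sq, one_pow, one_mul]
  rw [h1]
  simp only [prod_mul_distrib, prod_sin_Uw, prod_sin_Uw', lam_eq_la]

/-- `TQ` also at `w = pi / 16`, by continuity. -/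
theorem TQ_all {p l : ℕ} {psi0 : Sts p l → ℝ} (Fa : Family p l psi0)
    (tq : ∀ w : ℝ, 0 ≤ w → w < Real.pi / 8 → w ≠ Real.pi / 16 →
      TQ (2 * p) l (Uw (2 * p) w) (Fa.t w) (qf (Uw (2 * p) w) (Fa.psi w)))
    (w : ℝ) (h0 : 0 ≤ w) (h1 : w < Real.pi / 8) :
    TQ (2 * p) l (Uw (2 * p) w) (Fa.t w) (qf (Uw (2 * p) w) (Fa.psi w)) := by
  rw [TQ_iff]
  intro u
  have hq : ∀ x : ℂ, ContinuousOn (fun w => qf (Uw (2 * p) w) (Fa.psi w) x) (Set.Ico 0 (Real.pi / 8)) :=
    fun x => qf_cont Fa.cont x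
  have ht := t_cont Fa u
  have hf : ∀ x : ℂ, ContinuousOn (fun w : ℝ => ff p w x) (Set.Ico 0 (Real.pi / 8)) := by
    intro x
    have h2 : Continuous fun w : ℝ => ff p w x := by
      unfold ff
      fun_prop
    exact h2.continuousOn
  have hpi := Real.pi_pos
  refine Set.EqOn.of_subset_closure (s := Set.Ico 0 (Real.pi / 8) \ {Real.pi / 16})
    (t := Set.Ico 0 (Real.pi / 8))
    (f := fun w => Fa.t w u * qf (Uw (2 * p) w) (Fa.psi w) (u - la) *
      qf (Uw (2 * p) w) (Fa.psi w) (u - 2 * la))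
    (g := fun w => (-1) ^ l * (ff p w (u - 2 * la) * ff p w (u - 3 * la)) *
        qf (Uw (2 * p) w) (Fa.psi w) (u + la) * qf (Uw (2 * p) w) (Fa.psi w) (u - 2 * la)
      + (ff p w u * ff p w (u - 3 * la)) * qf (Uw (2 * p) w) (Fa.psi w) u *
        qf (Uw (2 * p) w) (Fa.psi w) (u - 3 * la)
      + (-1) ^ l * (ff p w u * ff p w (u - la)) * qf (Uw (2 * p) w) (Fa.psi w) (u - 4 * la) *
        qf (Uw (2 * p) w) (Fa.psi w) (u - la)) ?_ ?_ ?_ Set.sdiff_subset ?_ ⟨h0, h1⟩
  · intro w hw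
    exact (TQ_iff w _ _).1 (tq w hw.1.1 hw.1.2 hw.2) u
  · exact (ht.mul (hq _)).mul (hq _)
  · exact ((((continuousOn_const.mul ((hf _).mul (hf _))).mul (hq _)).mul (hq _)).add
      ((((hf _).mul (hf _)).mul (hq _)).mul (hq _))).add
      (((continuousOn_const.mul ((hf _).mul (hf _))).mul (hq _)).mul (hq _))
  · intro x hx
    by_cases hx1 : x = Real.pi / 16
    · have h3 : x ∈ closure (Set.Ioo (Real.pi / 16) (Real.pi / 8)) := by
        rw [closure_Ioo (by linarith)]
        exact ⟨hx1.ge, hx.2.le⟩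
      refine closure_mono ?_ h3
      intro y hy
      exact ⟨⟨by linarith [hy.1], hy.2⟩, fun h => by
        have h4 : y = Real.pi / 16 := h
        linarith [hy.1]⟩
    · exact subset_closure ⟨hx, hx1⟩

private theorem Iface_neg_one {p l : ℕ} (hp : l ≤ p) : ((-1 : ℂ)) ^ (2 * p + l) = (-1) ^ (2 * p - l) := by
  have h1 : 2 * p + l = (2 * p - l) + 2 * l := by omega
  rw [h1, pow_add, pow_mul (-1 : ℂ) 2 l, neg_one_sq, one_pow, mul_one]

/-- The data of part B. -/
theorem exists_BData {p l : ℕ} (hl : l = 1 ∨ l = 2) (hp : l ≤ p) {psi0 : Sts p l → ℝ}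
    (Fa : Family p l psi0)
    (tq : ∀ w : ℝ, 0 ≤ w → w < Real.pi / 8 → w ≠ Real.pi / 16 →
      TQ (2 * p) l (Uw (2 * p) w) (Fa.t w) (qf (Uw (2 * p) w) (Fa.psi w))) :
    ∃ D : BData p (2 * p - l) l, (∀ w u, D.q w u = qf (Uw (2 * p) w) (Fa.psi w) u) ∧
      (∀ w u, D.T w u = Fa.t w u) ∧ BLim D (qf (fun _ => 0) psi0) := by
  refine ⟨{ q := fun w u => qf (Uw (2 * p) w) (Fa.psi w) u
            T := Fa.t
            hm := by omega
            hl := hl
            hp := hp
            q_tp := fun w hw => qf_tp hl hp hw (Fa.psi w) (Fa.isPsi w hw.1 hw.2).nonneg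
              (fun m hm => (Fa.isPsi w hw.1 hw.2).supp m fun h => hm h.1) (Fa.arc w hw.1 hw.2)
            q_cont := fun u => qf_cont Fa.cont u
            q_conj := fun w _ u => qf_conj (Fa.psi w) w u
            q_neg := fun w hw u => by
              have h1 := Fa.par w hw.1 hw.2 u
              rw [Iface_neg_one hp] at h1
              exact h1
            tq := fun w hw u => (TQ_iff w _ _).1 (TQ_all Fa tq w hw.1 hw.2) u },
            fun _ _ => rfl, fun _ _ => rfl, ?_⟩
  · obtain ⟨ws, psis, ts, c, hc, hws, hlim, hpsi, hIs, -, ⟨hre, -⟩, hq⟩ := Fa.fus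
    refine ⟨ws, c, hws, hlim, hc.ne', fun u => ?_, ?_⟩
    · rw [← hq u]
      show Tendsto (fun n => qf (Uw (2 * p) (ws n)) (Fa.psi (ws n)) u) atTop _
      unfold qf
      refine tendsto_finsetSum _ fun m _ => ?_
      refine Tendsto.mul ?_ ?_
      · exact (Complex.continuous_ofReal.tendsto _).comp (hpsi m)
      · exact ((Iface_Os_cont u m).tendsto (Real.pi / 8)).comp hlim
    · have h1 : Tendsto (fun x : ℂ × ℕ => Fa.t (ws x.2) x.1) (𝓝 (la : ℂ) ×ˢ atTop) (𝓝 (ts la)) := by
        have h2 : (fun x : ℂ × ℕ => Fa.t (ws x.2) x.1) = fun x : ℂ × ℕ =>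
            ∑ m, (Fa.psi (ws x.2) m : ℂ) *
              Tf x.1 (Uw (2 * p) (ws x.2)) (fun m => if Chi m then 1 else 0) m := by
          funext x
          exact t_eq (Fa.isPsi _ (hws x.2).1 (hws x.2).2) x.1
        rw [h2, t_eq hIs]
        refine tendsto_finsetSum _ fun m _ => ?_
        refine Tendsto.mul ?_ ?_
        · exact (Complex.continuous_ofReal.tendsto _).comp ((hpsi m).comp tendsto_snd)
        · have h3 : Tendsto (fun x : ℂ × ℕ => (x.1, ws x.2)) (𝓝 (la : ℂ) ×ˢ atTop)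
              (𝓝 ((la : ℂ), Real.pi / 8)) := by
            rw [nhds_prod_eq]
            exact tendsto_fst.prodMk (hlim.comp tendsto_snd)
          have h9 : Tendsto (fun x : ℂ × ℝ =>
              Tf x.1 (Uw (2 * p) x.2) (fun m => if Chi m then 1 else 0) m)
              (𝓝 ((la : ℂ), Real.pi / 8))
              (𝓝 (Tf (la : ℂ) (Uw (2 * p) (Real.pi / 8)) (fun m => if Chi m then 1 else 0) m)) :=
            (Tf_cont (2 * p) l (fun m => if Chi m then 1 else 0) m).tendsto _
          have h10 := Tendsto.comp h9 h3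
          simp only [Function.comp_def] at h10
          exact h10
      have hne : 0 < ‖ts la‖ := by
        rw [norm_pos_iff]
        intro h0
        rw [lam_eq_la, h0] at hre
        simp at hre
      have h4 : ∀ᶠ x : ℂ × ℕ in 𝓝 (la : ℂ) ×ˢ atTop, ‖ts la‖ / 2 < ‖Fa.t (ws x.2) x.1‖ :=
        h1.norm.eventually (lt_mem_nhds (by linarith))
      rw [eventually_prod_iff] at h4
      obtain ⟨pa, hpa, pb, hpb, h5⟩ := h4
      obtain ⟨δ, hδ, h6⟩ := Metric.eventually_nhds_iff.1 hpa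
      refine ⟨δ / 2, by positivity, ‖ts la‖ / 2, by positivity, ?_⟩
      filter_upwards [hpb] with n hn u hu
      refine (h5 (h6 ?_) hn).le
      rw [dist_eq_norm]
      linarith

/-- The eigenvalue is continuous. -/
theorem t_continuous {L l : ℕ} {U : Fin L → ℂ} {psi : Sts L l → ℝ} {t : ℂ → ℂ} (h : IsPsi U psi t) :
    Continuous t := by
  have h1 : t = fun v => ∑ m, (psi m : ℂ) * Tf v U (fun m => if Chi m then 1 else 0) m :=
    funext fun v => t_eq h v
  rw [h1]
  refine continuous_finsetSum _ fun m _ => continuous_const.mul ?_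
  exact Tt_cont (lns L l) continuous_id (U := fun _ => rap U) (fun _ => continuous_const) _ m

end Pool.Agent.CYL
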